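import Pool.Agent.N549.HG.Stm

/-!
# Project HG (helper549), task SLICE: Fourier transform of the Euclidean ball (helper519)
-/

set_option autoImplicit false

open MeasureTheory Set Metric

noncomputable section

namespace Pool.Agent.N519.HG

open Pool.Agent.N549.HG

lemma mem_toLp_ball (n : ℕ) (ρ : ℝ) (hρ : 0 < ρ) (z : Fin n → ℝ) :
    WithLp.toLp 2 z ∈ ball (0 : EuclideanSpace ℝ (Fin n)) ρ ↔ ∑ i, z i ^ 2 < ρ ^ 2 := by
  rw [mem_ball_zero_iff, EuclideanSpace.norm_eq, Real.sqrt_lt' hρ]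
  simp

lemma vol_pi (m : ℕ) (ρ : ℝ) (hρ : 0 < ρ) :
    (volume {z : Fin m → ℝ | ∑ i, z i ^ 2 < ρ ^ 2}).toReal = ρ ^ m * ballVol m 1 := by
  have h1 : {z : Fin m → ℝ | ∑ i, z i ^ 2 < ρ ^ 2} =
      (WithLp.toLp 2) ⁻¹' (ball (0 : EuclideanSpace ℝ (Fin m)) ρ) := by
    ext z
    rw [mem_preimage, mem_toLp_ball m ρ hρ, mem_setOf_eq]
  rw [h1, (PiLp.volume_preserving_toLp (Fin m)).measure_preimage
    measurableSet_ball.nullMeasurableSet, Measure.addHaar_ball_of_pos _ _ hρ,
    finrank_euclideanSpace_fin, ENNReal.toReal_mul, ENNReal.toReal_ofReal (by positivity)]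
  rfl

/-- substitution `y = r sin φ` -/
lemma subst (m : ℕ) (r s : ℝ) (hr : 0 < r) :
    ∫ y in (-r)..r, Real.cos (s * y) * Real.sqrt (r ^ 2 - y ^ 2) ^ m =
      r ^ (m + 1) * In (m + 1) (r * s) := by
  have hg : Continuous fun y : ℝ => Real.cos (s * y) * Real.sqrt (r ^ 2 - y ^ 2) ^ m := by
    fun_prop
  have h1 := intervalIntegral.integral_comp_mul_deriv (a := -(Real.pi / 2)) (b := Real.pi / 2)
    (f := fun φ => r * Real.sin φ) (f' := fun φ => r * Real.cos φ)
    (g := fun y : ℝ => Real.cos (s * y) * Real.sqrt (r ^ 2 - y ^ 2) ^ m)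
    (fun x _ => (Real.hasDerivAt_sin x).const_mul r) (by fun_prop) hg
  simp only [Real.sin_neg, Real.sin_pi_div_two, mul_neg, mul_one] at h1
  rw [← h1, In, ← intervalIntegral.integral_const_mul]
  apply intervalIntegral.integral_congr
  intro φ hφ
  have hpi := Real.pi_pos
  rw [uIcc_of_le (by linarith)] at hφ
  have hc : 0 ≤ Real.cos φ := Real.cos_nonneg_of_mem_Icc hφ
  have e1 : r ^ 2 - (r * Real.sin φ) ^ 2 = (r * Real.cos φ) ^ 2 := by
    have := Real.sin_sq_add_cos_sq φ
    linear_combination (-(r ^ 2)) * this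
  have e2 : s * (r * Real.sin φ) = r * s * Real.sin φ := by ring
  simp only [Function.comp]
  rw [e1, Real.sqrt_sq (by positivity), e2]
  ring

/-- the set in coordinates -/
def SS (m : ℕ) (r : ℝ) : Set (ℝ × (Fin m → ℝ)) := {p | p.1 ^ 2 + ∑ i, p.2 i ^ 2 < r ^ 2}

lemma meas_SS (m : ℕ) (r : ℝ) : MeasurableSet (SS m r) := by
  apply IsOpen.measurableSet
  exact isOpen_lt (by fun_prop) continuous_const

/-- the equivalence -/
def ee (m : ℕ) : ℝ × (Fin m → ℝ) ≃ᵐ EuclideanSpace ℝ (Fin (m + 1)) :=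
  (MeasurableEquiv.piFinSuccAbove (fun _ => ℝ) 0).symm.trans
    (MeasurableEquiv.toLp 2 (Fin (m + 1) → ℝ))

lemma ee_mp (m : ℕ) : MeasurePreserving (ee m) (volume.prod volume) volume := by
  have h1 : MeasurePreserving (MeasurableEquiv.piFinSuccAbove (fun _ : Fin (m + 1) => ℝ) 0).symm :=
    (volume_preserving_piFinSuccAbove (fun _ : Fin (m + 1) => ℝ) 0).symm _
  exact h1.trans (PiLp.volume_preserving_toLp (Fin (m + 1)))

lemma ee_zero (m : ℕ) (p : ℝ × (Fin m → ℝ)) : ee m p 0 = p.1 := by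
  simp [ee, MeasurableEquiv.piFinSuccAbove_symm_apply, Fin.insertNthEquiv]

lemma ee_succ (m : ℕ) (p : ℝ × (Fin m → ℝ)) (i : Fin m) : ee m p i.succ = p.2 i := by
  simp [ee, MeasurableEquiv.piFinSuccAbove_symm_apply, Fin.insertNthEquiv]

lemma ee_pre (m : ℕ) (r : ℝ) (hr : 0 < r) :
    (ee m) ⁻¹' (ball (0 : EuclideanSpace ℝ (Fin (m + 1))) r) = SS m r := by
  ext p
  rw [mem_preimage, mem_ball_zero_iff, EuclideanSpace.norm_eq, Real.sqrt_lt' hr,
    Fin.sum_univ_succ]
  simp only [ee_zero, ee_succ, Real.norm_eq_abs, sq_abs]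
  rfl

lemma formula0 (m : ℕ) (r : ℝ) (hr : 0 < r) (s : ℝ) :
    ∫ x in ball (0 : EuclideanSpace ℝ (Fin (m + 1))) r, Real.cos (s * x 0) =
      ballVol m 1 * r ^ (m + 1) * In (m + 1) (r * s) := by
  rw [← (ee_mp m).setIntegral_preimage_emb (ee m).measurableEmbedding, ee_pre m r hr]
  simp only [ee_zero]
  have hfin : (volume.prod volume) (SS m r) < ⊤ := by
    rw [← ee_pre m r hr, (ee_mp m).measure_preimage measurableSet_ball.nullMeasurableSet]
    exact measure_ball_lt_top
  have hint : IntegrableOn (fun p : ℝ × (Fin m → ℝ) => Real.cos (s * p.1)) (SS m r)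
      (volume.prod volume) := by
    refine Measure.integrableOn_of_bounded (M := 1) hfin.ne ?_ ?_
    · exact (by fun_prop : Continuous fun p : ℝ × (Fin m → ℝ) => Real.cos (s * p.1)).aestronglyMeasurable
    · refine Filter.Eventually.of_forall fun p => ?_
      rw [Real.norm_eq_abs]
      exact Real.abs_cos_le_one _
  rw [← integral_indicator (meas_SS m r), integral_prod _ ((integrable_indicator_iff (meas_SS m r)).2 hint)]
  have h1 : ∀ y : ℝ, ∫ z : Fin m → ℝ, (SS m r).indicator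
      (fun p : ℝ × (Fin m → ℝ) => Real.cos (s * p.1)) (y, z) =
      (Ioo (-r) r).indicator (fun y => (Real.cos (s * y) * Real.sqrt (r ^ 2 - y ^ 2) ^ m) *
        ballVol m 1) y := by
    intro y
    have h2 : (fun z : Fin m → ℝ => (SS m r).indicator
      (fun p : ℝ × (Fin m → ℝ) => Real.cos (s * p.1)) (y, z)) =
      ({z : Fin m → ℝ | y ^ 2 + ∑ i, z i ^ 2 < r ^ 2}).indicator (fun _ => Real.cos (s * y)) := by
      funext z
      by_cases hz : y ^ 2 + ∑ i, z i ^ 2 < r ^ 2
      · rw [indicator_of_mem (show (y, z) ∈ SS m r from hz), indicator_of_mem (by exact hz)]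
      · rw [indicator_of_notMem (show (y, z) ∉ SS m r from hz), indicator_of_notMem (by exact hz)]
    rw [h2, integral_indicator (by
      apply IsOpen.measurableSet
      exact isOpen_lt (by fun_prop) continuous_const), setIntegral_const, smul_eq_mul]
    by_cases hy : y ∈ Ioo (-r) r
    · rw [indicator_of_mem hy]
      have hlt : y ^ 2 < r ^ 2 := sq_lt_sq' hy.1 hy.2
      have hpos : 0 < r ^ 2 - y ^ 2 := by linarith
      have e : {z : Fin m → ℝ | y ^ 2 + ∑ i, z i ^ 2 < r ^ 2} =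
          {z : Fin m → ℝ | ∑ i, z i ^ 2 < Real.sqrt (r ^ 2 - y ^ 2) ^ 2} := by
        rw [Real.sq_sqrt hpos.le]
        ext z
        simp only [mem_setOf_eq]
        constructor <;> intro h <;> linarith
      rw [e, measureReal_def, vol_pi m _ (Real.sqrt_pos.2 hpos)]
      ring
    · rw [indicator_of_notMem hy]
      have e : {z : Fin m → ℝ | y ^ 2 + ∑ i, z i ^ 2 < r ^ 2} = ∅ := by
        ext z
        simp only [mem_setOf_eq, mem_empty_iff_false, iff_false, not_lt]
        have h3 : 0 ≤ ∑ i, z i ^ 2 := Finset.sum_nonneg fun i _ => sq_nonneg _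
        have h4 : r ^ 2 ≤ y ^ 2 := by
          by_contra h
          exact hy (abs_lt.1 (abs_lt_of_sq_lt_sq (not_le.1 h) hr.le))
        linarith
      rw [e]
      simp
  simp only [h1]
  rw [integral_indicator measurableSet_Ioo, ← integral_Ioc_eq_integral_Ioo,
    ← intervalIntegral.integral_of_le (by linarith), intervalIntegral.integral_mul_const,
    subst m r s hr]
  ring

lemma formula (m : ℕ) (r : ℝ) (hr : 0 < r) (ξ : EuclideanSpace ℝ (Fin (m + 1))) :
    ∫ x in ball (0 : EuclideanSpace ℝ (Fin (m + 1))) r, Real.cos (inner ℝ ξ x) =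
      ballVol m 1 * r ^ (m + 1) * In (m + 1) (r * ‖ξ‖) := by
  rw [← formula0 m r hr ‖ξ‖]
  set w : EuclideanSpace ℝ (Fin (m + 1)) := EuclideanSpace.single 0 ‖ξ‖ with hw
  have hn : ‖ξ‖ = ‖w‖ := by
    rw [hw, EuclideanSpace.norm_single, norm_norm]
  set L := (Submodule.reflection (ℝ ∙ (ξ - w))ᗮ) with hL
  have hLx : L ξ = w := Submodule.reflection_sub hn
  have hmp : MeasurePreserving L := LinearIsometryEquiv.measurePreserving L
  have hpre : L ⁻¹' (ball (0 : EuclideanSpace ℝ (Fin (m + 1))) r) = ball 0 r := by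
    ext x
    rw [mem_preimage, mem_ball_zero_iff, mem_ball_zero_iff, LinearIsometryEquiv.norm_map]
  rw [← hmp.setIntegral_preimage_emb L.toHomeomorph.measurableEmbedding
    (fun x => Real.cos (‖ξ‖ * x 0)), hpre]
  congr 1
  funext x
  have h1 : inner ℝ ξ x = inner ℝ (L ξ) (L x) := (LinearIsometryEquiv.inner_map_map L ξ x).symm
  rw [h1, hLx, hw, EuclideanSpace.inner_single_left]
  simp

lemma In_pos (n : ℕ) : 0 < In n 0 := by
  have hpi := Real.pi_pos
  unfold In
  apply intervalIntegral.intervalIntegral_pos_of_pos_on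
  · apply Continuous.intervalIntegrable
    fun_prop
  · intro x hx
    rw [zero_mul, Real.cos_zero, one_mul]
    exact pow_pos (Real.cos_pos_of_mem_Ioo hx) _
  · linarith

theorem slice : S_SLICE := by
  intro n hn r hr ξ
  obtain ⟨m, rfl⟩ : ∃ m, n = m + 1 := ⟨n - 1, by omega⟩
  have h0 := formula m r hr 0
  rw [norm_zero, mul_zero] at h0
  simp only [inner_zero_left, Real.cos_zero] at h0
  rw [setIntegral_const, smul_eq_mul, mul_one, measureReal_def] at h0
  have h0' : ballVol (m + 1) r = ballVol m 1 * r ^ (m + 1) * In (m + 1) 0 := h0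
  rw [formula m r hr ξ, h0']
  have := (In_pos (m + 1)).ne'
  field_simp

end Pool.Agent.N519.HG
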